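import Pool.Agent.helper33.QX.SpecA
import Pool.Agent.helper42.QU.CA2

/-! # Project QX, row qa:CHG (the coordinates `x`, `t = log y`) -/

set_option autoImplicit false

open scoped MatrixGroups ContDiff Topology UpperHalfPlane
open UpperHalfPlane MeasureTheory Filter Set
open Pool.Agent.QU

namespace Pool.Agent.QX

/-- the point `x + i e^t` of the complex plane -/
private noncomputable def CHG_cp (p : ℝ × ℝ) : ℂ := (p.1 : ℂ) + ((Real.exp p.2 : ℝ) : ℂ) * Complex.I

private theorem CHG_coe (p : ℝ × ℝ) : ((pt p : ℍ) : ℂ) = CHG_cp p := by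
  apply Complex.ext
  · simp [pt, CHG_cp, -Complex.ofReal_exp]
  · simp [pt, CHG_cp, -Complex.ofReal_exp]

private theorem CHG_im (p : ℝ × ℝ) : (pt p).im = Real.exp p.2 := rfl

private theorem CHG_re (p : ℝ × ℝ) : (pt p).re = p.1 := rfl

private theorem CHG_mem (p : ℝ × ℝ) : CHG_cp p ∈ CA1_U := by
  rw [← CHG_coe]
  exact CA1_mem (pt p)

private theorem CHG_smooth : ContDiff ℝ ∞ CHG_cp := by
  unfold CHG_cp
  refine ContDiff.add ?_ (ContDiff.mul ?_ contDiff_const)
  · exact Complex.ofRealCLM.contDiff.comp contDiff_fst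
  · exact Complex.ofRealCLM.contDiff.comp (Real.contDiff_exp.comp contDiff_snd)

private theorem CHG_eq (F : ℍ → ℝ) : (fun p : ℝ × ℝ => F (pt p)) = fun p => onC F (CHG_cp p) := by
  funext p
  rw [← CHG_coe, CA1_val]

/-- the derivative of the coordinate map -/
private noncomputable def CHG_D (p : ℝ × ℝ) : ℝ × ℝ →L[ℝ] ℂ :=
  Complex.ofRealCLM.comp (ContinuousLinearMap.fst ℝ ℝ ℝ) +
    ((Real.exp p.2 : ℝ) • (ContinuousLinearMap.snd ℝ ℝ ℝ)).smulRight Complex.I

private theorem CHG_hasD (p : ℝ × ℝ) : HasFDerivAt CHG_cp (CHG_D p) p := by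
  unfold CHG_D
  have h1 : HasFDerivAt (fun q : ℝ × ℝ => ((q.1 : ℝ) : ℂ))
      (Complex.ofRealCLM.comp (ContinuousLinearMap.fst ℝ ℝ ℝ)) p :=
    (Complex.ofRealCLM.comp (ContinuousLinearMap.fst ℝ ℝ ℝ)).hasFDerivAt
  have h2 : HasFDerivAt (fun q : ℝ × ℝ => Real.exp q.2)
      ((Real.exp p.2 : ℝ) • (ContinuousLinearMap.snd ℝ ℝ ℝ)) p :=
    (ContinuousLinearMap.snd ℝ ℝ ℝ).hasFDerivAt.exp
  have h3 : HasFDerivAt (fun q : ℝ × ℝ => Real.exp q.2 • Complex.I)
      (((Real.exp p.2 : ℝ) • (ContinuousLinearMap.snd ℝ ℝ ℝ)).smulRight Complex.I) p :=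
    h2.smul_const Complex.I
  have h4 := h1.add h3
  have h5 : CHG_cp = fun q : ℝ × ℝ => ((q.1 : ℝ) : ℂ) + Real.exp q.2 • Complex.I := by
    funext q
    rw [CHG_cp, Complex.real_smul]
  rw [h5]
  exact h4

private theorem CHG_D1 (p : ℝ × ℝ) : CHG_D p (1, 0) = 1 := by
  simp [CHG_D]

private theorem CHG_D2 (p : ℝ × ℝ) : CHG_D p (0, 1) = Real.exp p.2 • Complex.I := by
  simp [CHG_D]

/-- chain rule -/
private theorem CHG_chain {F : ℍ → ℝ} (h : CD 1 F) (p : ℝ × ℝ) :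
    HasFDerivAt (fun q : ℝ × ℝ => F (pt q)) ((fderiv ℝ (onC F) (pt p : ℂ)).comp (CHG_D p)) p := by
  rw [CHG_eq]
  have h1 : HasFDerivAt (onC F) (fderiv ℝ (onC F) (pt p : ℂ)) (CHG_cp p) := by
    rw [← CHG_coe]
    exact (CA1_diff h (pt p)).hasFDerivAt
  exact h1.comp p (CHG_hasD p)

/-- the weighted function -/
private noncomputable def CHG_W (F : ℍ → ℝ) (p : ℝ × ℝ) : ℝ := Real.exp (-p.2 / 2) * F (pt p)

private theorem CHG_hexp (c : ℝ) (p : ℝ × ℝ) : HasFDerivAt (fun q : ℝ × ℝ => Real.exp (c * q.2))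
    (Real.exp (c * p.2) • (c • ContinuousLinearMap.snd ℝ ℝ ℝ)) p := by
  have h1 : HasFDerivAt (fun q : ℝ × ℝ => c * q.2) (c • ContinuousLinearMap.snd ℝ ℝ ℝ) p :=
    (ContinuousLinearMap.snd ℝ ℝ ℝ).hasFDerivAt.const_mul c
  exact h1.exp

private theorem CHG_Weq (F : ℍ → ℝ) :
    CHG_W F = fun q : ℝ × ℝ => Real.exp ((-1 / 2) * q.2) * F (pt q) := by
  funext q
  have h : -q.2 / 2 = (-1 / 2) * q.2 := by ring
  rw [CHG_W, h]

private theorem CHG_hW {F : ℍ → ℝ} (h : CD 1 F) (p : ℝ × ℝ) :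
    HasFDerivAt (CHG_W F) (Real.exp ((-1 / 2) * p.2) • ((fderiv ℝ (onC F) (pt p : ℂ)).comp (CHG_D p)) +
      F (pt p) • (Real.exp ((-1 / 2) * p.2) • ((-1 / 2 : ℝ) • ContinuousLinearMap.snd ℝ ℝ ℝ))) p := by
  rw [CHG_Weq]
  exact (CHG_hexp (-1 / 2) p).mul (CHG_chain h p)

private theorem CHG_pT {F : ℍ → ℝ} (h : CD 1 F) : pT (CHG_W F) = CHG_W (dD F) := by
  funext p
  unfold pT
  rw [(CHG_hW h p).fderiv]
  have h1 : -p.2 / 2 = (-1 / 2) * p.2 := by ring
  simp only [_root_.add_apply, _root_.smul_apply, ContinuousLinearMap.comp_apply, CHG_D2,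
    ContinuousLinearMap.coe_snd', smul_eq_mul, map_smul, CHG_W, dD, dY, CHG_im, h1]
  ring

private theorem CHG_pX {F : ℍ → ℝ} (h : CD 1 F) (p : ℝ × ℝ) :
    pX (CHG_W F) p = Real.exp (-1 * p.2) * CHG_W (dX F) p := by
  unfold pX
  rw [(CHG_hW h p).fderiv]
  have h1 : -p.2 / 2 = (-1 / 2) * p.2 := by ring
  have h2 : Real.exp (-1 * p.2) * Real.exp p.2 = 1 := by
    rw [← Real.exp_add]
    simp
  simp only [_root_.add_apply, _root_.smul_apply, ContinuousLinearMap.comp_apply, CHG_D1,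
    ContinuousLinearMap.coe_snd', smul_eq_mul, CHG_W, dX, CHG_im, h1, mul_zero, add_zero]
  have h3 : Real.exp (-1 * p.2) * (Real.exp (-1 / 2 * p.2) *
      (Real.exp p.2 * fderiv ℝ (onC F) (pt p : ℂ) 1)) =
      (Real.exp (-1 * p.2) * Real.exp p.2) * (Real.exp (-1 / 2 * p.2) *
      fderiv ℝ (onC F) (pt p : ℂ) 1) := by ring
  rw [h3, h2, one_mul]

private theorem CHG_pXX {F : ℍ → ℝ} (h : CD 1 F) (h' : CD 1 (dX F)) (p : ℝ × ℝ) :
    pX (pX (CHG_W F)) p = Real.exp (-2 * p.2) * CHG_W (dX (dX F)) p := by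
  have e : pX (CHG_W F) = fun q : ℝ × ℝ => Real.exp (-1 * q.2) * CHG_W (dX F) q := by
    funext q
    exact CHG_pX h q
  have e2 := CHG_pX h' p
  unfold pX at e2
  rw [e]
  unfold pX
  have hd : HasFDerivAt (CHG_W (dX F)) (fderiv ℝ (CHG_W (dX F)) p) p :=
    ((CHG_hW h' p).differentiableAt).hasFDerivAt
  have hm : HasFDerivAt (fun q : ℝ × ℝ => Real.exp (-1 * q.2) * CHG_W (dX F) q)
      (Real.exp (-1 * p.2) • (fderiv ℝ (CHG_W (dX F)) p) + CHG_W (dX F) p •
        (Real.exp (-1 * p.2) • ((-1 : ℝ) • ContinuousLinearMap.snd ℝ ℝ ℝ))) p :=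
    (CHG_hexp (-1) p).mul hd
  rw [hm.fderiv]
  simp only [_root_.add_apply, _root_.smul_apply, ContinuousLinearMap.coe_snd', smul_eq_mul,
    mul_zero, add_zero]
  rw [e2, ← mul_assoc, ← Real.exp_add]
  congr 2
  ring

private theorem CHG_contpt : Continuous pt := by
  rw [UpperHalfPlane.isEmbedding_coe.continuous_iff]
  have h : (UpperHalfPlane.coe ∘ pt) = CHG_cp := by
    funext p
    exact CHG_coe p
  rw [h]
  exact CHG_smooth.continuous

private noncomputable def CHG_homeo : ℝ × ℝ ≃ₜ ℍ where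
  toFun := pt
  invFun z := (z.re, Real.log z.im)
  left_inv p := by
    simp only [CHG_im, CHG_re, Real.log_exp]
  right_inv z := by
    apply UpperHalfPlane.ext
    apply Complex.ext
    · rfl
    · show Real.exp (Real.log z.im) = z.im
      exact Real.exp_log z.im_pos
  continuous_toFun := CHG_contpt
  continuous_invFun := by
    refine UpperHalfPlane.continuous_re.prodMk ?_
    exact UpperHalfPlane.continuous_im.log (fun z => z.im_pos.ne')

theorem CHG : CHG_stmt := by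
  refine ⟨?_, ?_⟩
  · intro u hu hcu U
    have hU : U = CHG_W u := rfl
    obtain ⟨-, hle, hadd, hsm, hder, hda, hds, -, hconst, -⟩ := CA1 ℝ
    have h2 : CD 2 u := hle u 2 ∞ (WithTop.coe_le_coe.2 le_top) hu
    have h1 : CD 1 u := hle u 1 2 (by norm_num) h2
    have h2' : CD (((1 : ℕ) : WithTop ℕ∞) + 1) u := by
      have e : (((1 : ℕ) : WithTop ℕ∞) + 1) = 2 := by norm_num
      rw [e]
      exact h2
    obtain ⟨hX1, hY1⟩ := hder u 1 h2'
    have hX1' : CD 1 (dX u) := by exact_mod_cast hX1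
    have hY1' : CD 1 (dY u) := by exact_mod_cast hY1
    have hc1 : CD 1 (fun z => (-1 / 2 : ℝ) • u z) := hsm _ _ 1 (hconst _ 1) h1
    have hDeq : dD u = fun z => dY u z + (-1 / 2 : ℝ) • u z := by
      funext z
      rw [dD, smul_eq_mul]
      ring
    have hD1 : CD 1 (dD u) := by
      rw [hDeq]
      exact hadd _ _ 1 hY1' hc1
    refine ⟨?_, ?_, ?_, ?_⟩
    · rw [hU]
      have e : CHG_W u = fun p : ℝ × ℝ => Real.exp (-p.2 / 2) * (fun p : ℝ × ℝ => u (pt p)) p := rfl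
      rw [e]
      refine ContDiff.mul ?_ ?_
      · exact Real.contDiff_exp.comp ((contDiff_snd.neg).div_const 2)
      · rw [CHG_eq]
        have hu' : ContDiffOn ℝ ∞ (onC u) CA1_U := hu
        have h3 : ContDiff ℝ ∞ (onC u ∘ CHG_cp) :=
          hu'.comp_contDiff CHG_smooth (fun p => CHG_mem p)
        exact h3
    · rw [hU]
      have h3 : HasCompactSupport (u ∘ CHG_homeo) := hcu.comp_homeomorph CHG_homeo
      exact h3.mul_left
    · intro p
      rw [hU, CHG_pT h1]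
      rfl
    · intro μ p
      rw [hU]
      unfold GG
      rw [CHG_pT h1, CHG_pT hD1, CHG_pXX h1 hX1' p]
      have hlap := (CA2 CA1 ℝ u h2 (pt p)).2
      have e1 : Real.exp (2 * p.2) * (Real.exp (-2 * p.2) * CHG_W (dX (dX u)) p) =
          CHG_W (dX (dX u)) p := by
        rw [← mul_assoc, ← Real.exp_add]
        have e2 : 2 * p.2 + -2 * p.2 = 0 := by ring
        rw [e2, Real.exp_zero, one_mul]
      have e3 : dD (dD u) (pt p) = dY (dY u) (pt p) - dY u (pt p) + u (pt p) / 4 := by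
        have e4 : dY (dD u) (pt p) = dY (dY u) (pt p) + (-1 / 2 : ℝ) * dY u (pt p) := by
          rw [hDeq, (hda _ _ hY1' hc1 (pt p)).2]
          have e5 := (hds (fun _ => (-1 / 2 : ℝ)) u (hconst _ 1) h1 (pt p)).2
          have e6 : dY (fun _ : ℍ => (-1 / 2 : ℝ)) (pt p) = 0 := by
            unfold dY
            have e7 : onC (fun _ : ℍ => (-1 / 2 : ℝ)) = fun _ => (-1 / 2 : ℝ) := rfl
            rw [e7]
            simp
          rw [e5, e6]
          simp only [smul_eq_mul, zero_mul, add_zero]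
        have e8 : dD (dD u) (pt p) = dY (dD u) (pt p) - dD u (pt p) / 2 := rfl
        rw [e8, e4, dD]
        ring
      rw [e1, hlap]
      simp only [CHG_W]
      rw [e3]
      ring
  · intro θ F p
    unfold hp hav
    rw [← integral_const_mul]
    refine integral_congr_ae (Filter.Eventually.of_forall fun v => ?_)
    have e : (v * (pt p).im) +ᵥ pt p = pt (p.1 + v * Real.exp p.2, p.2) := by
      apply UpperHalfPlane.ext
      apply Complex.ext
      · show ((v * (pt p).im) +ᵥ pt p).re = (pt (p.1 + v * Real.exp p.2, p.2)).re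
        rw [UpperHalfPlane.vadd_re, CHG_re, CHG_re, CHG_im]
        ring
      · show ((v * (pt p).im) +ᵥ pt p).im = (pt (p.1 + v * Real.exp p.2, p.2)).im
        rw [UpperHalfPlane.vadd_im, CHG_im, CHG_im]
    show θ v * (Real.exp (-p.2 / 2) * F (pt (p.1 + v * Real.exp p.2, p.2))) =
      Real.exp (-p.2 / 2) * (θ v * F ((v * (pt p).im) +ᵥ pt p))
    rw [e]
    ring

end Pool.Agent.QX
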