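import Pool.Agent.helper4.QX.SpecM

set_option autoImplicit false

/-!
# Project QX (MP_07c750_an), row qm:EXH: the expected normalised trace is a power series
-/

open scoped MatrixGroups ContDiff Topology UpperHalfPlane
open UpperHalfPlane MeasureTheory ProbabilityTheory Filter Set Polynomial
open Pool.Agent.QU Pool.Agent.RP

namespace Pool.Agent.QX

private theorem EXH_coeff {D : ℕ} (P : Mat D F2) (K : ℝ) (h : ℝ[X]) (i j : Fin D) (w : F2) :
    ((aeval (K⁻¹ • P) h) i j).coeff w =
      ∑ k ∈ Finset.range (h.natDegree + 1), ((h.coeff k * K⁻¹ ^ k : ℝ) : ℂ) * ((P ^ k) i j).coeff w := by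
  rw [Polynomial.aeval_eq_sum_range]
  rw [Matrix.sum_apply, MonoidAlgebra.coeff_sum, Finsupp.finsetSum_apply]
  refine Finset.sum_congr rfl fun k _ => ?_
  rw [_root_.smul_pow, smul_smul, Matrix.smul_apply, MonoidAlgebra.coeff_smul, Finsupp.smul_apply,
    Complex.real_smul]

private theorem EXH_bound {D q : ℕ} (hMRD : MRD_stmt) (P : Mat D F2) (K r : ℝ) (h : ℝ[X]) (hK : 0 < K)
    (hr : 0 ≤ r) (hP : RegB P r) (i j : Fin D) (w : F2) :
    ‖((aeval (K⁻¹ • P) h) i j).coeff w‖ ≤ maj h (r / K) := by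
  rw [EXH_coeff]
  refine (norm_sum_le _ _).trans ?_
  unfold maj
  refine Finset.sum_le_sum fun k _ => ?_
  rw [norm_mul, Complex.norm_real, Real.norm_eq_abs, abs_mul, abs_of_nonneg (by positivity : 0 ≤ K⁻¹ ^ k)]
  have h1 := (hMRD D q P r hr hP).1 k i j w
  calc |h.coeff k| * K⁻¹ ^ k * ‖((P ^ k) i j).coeff w‖ ≤ |h.coeff k| * K⁻¹ ^ k * r ^ k :=
        mul_le_mul_of_nonneg_left h1 (by positivity)
    _ = |h.coeff k| * (r / K) ^ k := by
        rw [div_pow, inv_pow]
        field_simp

private theorem EXH_sup {D q d : ℕ} (hMRD : MRD_stmt) (P : Mat D F2) (K r : ℝ) (h : ℝ[X])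
    (hr : 0 ≤ r) (hP : RegB P r) (hS : Sup P {w | w.norm ≤ q}) (hd : h.natDegree ≤ d) :
    Sup (aeval (K⁻¹ • P) h : Mat D F2) {w | w.norm ≤ q * d} := by
  intro i j w hw
  by_contra hcon
  apply Finsupp.mem_support_iff.1 hw
  rw [EXH_coeff]
  refine Finset.sum_eq_zero fun k hk => ?_
  have hk' : k ≤ d := (Nat.lt_succ_iff.1 (Finset.mem_range.1 hk)).trans hd
  have h1 : ((P ^ k) i j).coeff w = 0 := by
    by_contra h2
    have h3 := (hMRD D q P r hr hP).2 hS k i j w (Finsupp.mem_support_iff.2 h2)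
    apply hcon
    have h4 : w.norm ≤ q * k := h3
    exact h4.trans (Nat.mul_le_mul_left q hk')
  rw [h1, mul_zero]

private theorem EXH_contX {N : ℕ} (i : Fin 4) : Continuous (fun x : GI N → ℝ => XM x i) := by
  unfold XM
  refine Continuous.fun_const_smul ?_ _
  refine continuous_finsetSum _ fun p _ => ?_
  have h : Continuous (fun x : GI N → ℝ => ((x (i, p) : ℝ) : ℂ)) :=
    Complex.continuous_ofReal.comp (continuous_apply (i, p))
  have h' : Continuous (fun _ : GI N → ℝ => (BM p : Matrix (Fin N) (Fin N) ℂ)) := continuous_const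
  exact h.smul h'

open scoped Matrix.Norms.Operator in
private theorem EXH_contE {N : ℕ} (c : ℝ) (i : Fin 4) : Continuous (fun x : GI N → ℝ => EX c x i) := by
  have h : Continuous (fun x : GI N → ℝ => (Complex.I * (c : ℂ)) • XM x i) := (EXH_contX i).fun_const_smul _
  have h' : Continuous (NormedSpace.exp : Matrix (Fin N) (Fin N) ℂ → Matrix (Fin N) (Fin N) ℂ) :=
    NormedSpace.exp_continuous
  exact h'.comp h

private theorem EXH_contU {N : ℕ} (c : ℝ) (w : F2) : Continuous (fun x : GI N → ℝ =>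
    ((UG c x w : Matrix.unitaryGroup (Fin N) ℂ) : Matrix (Fin N) (Fin N) ℂ)) := by
  induction w using FreeGroup.induction_on with
  | C1 =>
    simp only [map_one]
    exact continuous_const
  | of i =>
    have h1 : ∀ (x : GI N → ℝ) (i : Fin 2), UG c x (FreeGroup.of i) =
        ![EU c x 0 * EU c x 1, EU c x 2 * EU c x 3] i := by
      intro x i
      exact FreeGroup.lift_apply_of
    have h0 : ∀ i : Fin 2, i = 0 ∨ i = 1 := by decide
    rcases h0 i with rfl | rfl
    · have h2 : (fun x : GI N → ℝ => ((UG c x (FreeGroup.of 0) : Matrix.unitaryGroup (Fin N) ℂ) :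
          Matrix (Fin N) (Fin N) ℂ)) = fun x => EX c x 0 * EX c x 1 := by
        funext x
        rw [h1]
        rfl
      rw [h2]
      exact (EXH_contE c 0).mul (EXH_contE c 1)
    · have h2 : (fun x : GI N → ℝ => ((UG c x (FreeGroup.of 1) : Matrix.unitaryGroup (Fin N) ℂ) :
          Matrix (Fin N) (Fin N) ℂ)) = fun x => EX c x 2 * EX c x 3 := by
        funext x
        rw [h1]
        rfl
      rw [h2]
      exact (EXH_contE c 2).mul (EXH_contE c 3)
  | inv_of i hi =>
    have h2 : (fun x : GI N → ℝ => ((UG c x (FreeGroup.of i)⁻¹ : Matrix.unitaryGroup (Fin N) ℂ) :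
          Matrix (Fin N) (Fin N) ℂ)) =
        fun x => star ((UG c x (FreeGroup.of i) : Matrix.unitaryGroup (Fin N) ℂ) : Matrix (Fin N) (Fin N) ℂ) := by
      funext x
      rw [map_inv]
      rfl
    rw [h2]
    exact hi.star
  | mul a b ha hb =>
    have h2 : (fun x : GI N → ℝ => ((UG c x (a * b) : Matrix.unitaryGroup (Fin N) ℂ) :
          Matrix (Fin N) (Fin N) ℂ)) =
        fun x => ((UG c x a : Matrix.unitaryGroup (Fin N) ℂ) : Matrix (Fin N) (Fin N) ℂ) *
          ((UG c x b : Matrix.unitaryGroup (Fin N) ℂ) : Matrix (Fin N) (Fin N) ℂ) := by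
      funext x
      rw [map_mul]
      rfl
    rw [h2]
    exact ha.mul hb

private theorem EXH_trInt {N : ℕ} (c : ℝ) (w : F2) : Integrable (fun x : GI N → ℝ =>
    Matrix.trace ((UG c x w : Matrix.unitaryGroup (Fin N) ℂ) : Matrix (Fin N) (Fin N) ℂ)) (gau (GI N)) := by
  have hfin : IsFiniteMeasure (gau (GI N)) := by
    unfold gau
    infer_instance
  refine Integrable.of_bound ((EXH_contU c w).matrix_trace).aestronglyMeasurable (N : ℝ) ?_
  refine Filter.Eventually.of_forall fun x => ?_
  unfold Matrix.trace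
  refine (norm_sum_le _ _).trans ?_
  calc ∑ i : Fin N, ‖Matrix.diag ((UG c x w : Matrix.unitaryGroup (Fin N) ℂ) : Matrix (Fin N) (Fin N) ℂ) i‖
      ≤ ∑ _i : Fin N, (1 : ℝ) := Finset.sum_le_sum fun i _ =>
        entry_norm_bound_of_unitary (UG c x w).2 i i
    _ = N := by simp

theorem EXH (h1 : BAL_stmt) (h2 : MRA_stmt) (h3 : MRD_stmt) : EXH_stmt := by
  intro c C hEX D q d P K r h hD hK hr hP hS hd
  obtain ⟨hc0, hc2, hC1, hw⟩ := hEX
  choose f hfs hfC hf0 hfI using hw
  set b : Mat D F2 := aeval (K⁻¹ • P) h with hb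
  set S : Finset F2 := ball (q * d) with hSdef
  have hDR : (1 : ℝ) ≤ D := by exact_mod_cast hD
  have hD0 : (0 : ℝ) < D := by linarith
  have hDC : (D : ℂ) ≠ 0 := by exact_mod_cast (show D ≠ 0 by omega)
  set β : F2 → ℂ := fun w => (∑ i, (b i i).coeff w) / D with hβ
  have hmaj0 : 0 ≤ maj h (r / K) := by
    unfold maj
    exact Finset.sum_nonneg fun k _ => by positivity
  have hβb : ∀ w, ‖β w‖ ≤ maj h (r / K) := by
    intro w
    rw [hβ]
    simp only
    rw [norm_div, Complex.norm_natCast, div_le_iff₀ hD0]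
    refine (norm_sum_le _ _).trans ?_
    calc ∑ i : Fin D, ‖(b i i).coeff w‖ ≤ ∑ _i : Fin D, maj h (r / K) :=
          Finset.sum_le_sum fun i _ => EXH_bound (q := q) h3 P K r h hK hr hP i i w
      _ = maj h (r / K) * D := by
          rw [Finset.sum_const, Finset.card_univ, Fintype.card_fin, nsmul_eq_mul, mul_comm]
  have hbS : Sup b (S : Set F2) := by
    intro i j w hw
    have h4 := EXH_sup h3 P K r h hr hP hS hd i j w hw
    rw [Finset.mem_coe, hSdef, h1]
    exact h4
  -- the coefficients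
  have hterm : ∀ w, Summable fun k => ‖β w * f w k‖ := fun w => by
    simp only [norm_mul]
    exact (hfs w).mul_left _
  have hsumS : Summable fun k => ∑ w ∈ S, ‖β w * f w k‖ := summable_sum fun w _ => hterm w
  refine ⟨fun k => (∑ w ∈ S, β w * f w k).re, ?_, ?_, ?_, ?_⟩
  · refine Summable.of_nonneg_of_le (fun k => abs_nonneg _) (fun k => ?_) hsumS
    exact (Complex.abs_re_le_norm _).trans (norm_sum_le _ _)
  · have h4 : ∑' k, |(∑ w ∈ S, β w * f w k).re| ≤ ∑' k, ∑ w ∈ S, ‖β w * f w k‖ := by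
      refine Summable.tsum_le_tsum (fun k => (Complex.abs_re_le_norm _).trans (norm_sum_le _ _)) ?_ hsumS
      refine Summable.of_nonneg_of_le (fun k => abs_nonneg _) (fun k => ?_) hsumS
      exact (Complex.abs_re_le_norm _).trans (norm_sum_le _ _)
    refine h4.trans ?_
    rw [Summable.tsum_finsetSum fun w _ => hterm w]
    calc ∑ w ∈ S, ∑' k, ‖β w * f w k‖ ≤ ∑ w ∈ S, maj h (r / K) * Real.exp (C * ((q * d : ℕ) + 1 : ℝ) ^ 2) := by
          refine Finset.sum_le_sum fun w hwS => ?_
          simp only [norm_mul]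
          rw [tsum_mul_left]
          have h5 : w.norm ≤ q * d := (h1 _ _).1 hwS
          have h6 : Real.exp (C * ((w.norm : ℝ) + 1) ^ 2) ≤ Real.exp (C * ((q * d : ℕ) + 1 : ℝ) ^ 2) := by
            apply Real.exp_le_exp.2
            apply mul_le_mul_of_nonneg_left _ (by linarith)
            have h7 : (w.norm : ℝ) ≤ ((q * d : ℕ) : ℝ) := by exact_mod_cast h5
            exact pow_le_pow_left₀ (by positivity) (by linarith) 2
          exact mul_le_mul (hβb w) ((hfC w).trans h6) (tsum_nonneg fun k => norm_nonneg _) hmaj0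
      _ = _ := by
          rw [Finset.sum_const, nsmul_eq_mul]
          ring
  · have h4 : ∑ w ∈ S, β w * f w 0 = β 1 := by
      rw [Finset.sum_eq_single (1 : F2)]
      · rw [hf0, if_pos rfl, mul_one]
      · intro w _ hne
        rw [hf0, if_neg hne, mul_zero]
      · intro hn
        exfalso
        apply hn
        rw [hSdef, h1]
        simp
    simp only
    rw [h4]
    exact (Complex.abs_re_le_norm _).trans (hβb 1)
  · intro N hN
    have hNR : (1 : ℝ) ≤ N := by exact_mod_cast hN
    have hNC : (N : ℂ) ≠ 0 := by exact_mod_cast (show N ≠ 0 by omega)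
    set T : F2 → (GI N → ℝ) → ℂ := fun w x =>
      Matrix.trace ((UG c x w : Matrix.unitaryGroup (Fin N) ℂ) : Matrix (Fin N) (Fin N) ℂ) with hT
    set G : (GI N → ℝ) → ℂ := fun x => ∑ w ∈ S, β w / N * T w x with hG
    have hGint : Integrable G (gau (GI N)) := by
      rw [hG]
      exact integrable_finsetSum _ fun w _ => (EXH_trInt c w).const_mul _
    have hnt : ∀ x, nt c K P h x = (G x).re := by
      intro x
      unfold nt
      have h4 := (h2 D N c x).2.2.2.2.2 b S hbS
      have h5 : Matrix.trace (RM c x (aeval (K⁻¹ • P) h)) = (D * N : ℂ) * G x := by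
        rw [← hb, h4, hG]
        simp only
        rw [Finset.mul_sum]
        refine Finset.sum_congr rfl fun w _ => ?_
        rw [hβ, hT]
        simp only
        field_simp
      rw [h5]
      have h6 : ((D * N : ℂ) * G x).re = (D * N : ℝ) * (G x).re := by
        have h7 : (D * N : ℂ) = ((D * N : ℝ) : ℂ) := by push_cast; rfl
        rw [h7, Complex.re_ofReal_mul]
      rw [h6, mul_div_cancel_left₀ _ (by positivity)]
    have hnt' : (fun x : GI N → ℝ => nt c K P h x) = fun x => (G x).re := funext hnt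
    rw [hnt']
    refine ⟨hGint.re, ?_⟩
    have h4 : ∫ x, (G x).re ∂(gau (GI N)) = (∫ x, G x ∂(gau (GI N))).re := integral_re hGint
    rw [h4]
    have h5 : ∫ x, G x ∂(gau (GI N)) = ∑ w ∈ S, β w * ∑' k, f w k / (N : ℂ) ^ (2 * k) := by
      rw [hG, integral_finsetSum _ fun w _ => (EXH_trInt c w).const_mul _]
      refine Finset.sum_congr rfl fun w _ => ?_
      rw [integral_const_mul]
      have h6 : ∫ x, T w x ∂(gau (GI N)) = N * ∑' k, f w k / (N : ℂ) ^ (2 * k) := hfI w N hN
      rw [h6]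
      field_simp
    rw [h5]
    have h6 : ∀ w, Summable fun k => f w k / (N : ℂ) ^ (2 * k) := by
      intro w
      refine Summable.of_norm_bounded (hfs w) fun k => ?_
      rw [norm_div, norm_pow, Complex.norm_natCast]
      exact div_le_self (norm_nonneg _) (one_le_pow₀ hNR)
    have h7 : HasSum (fun k => ∑ w ∈ S, β w * (f w k / (N : ℂ) ^ (2 * k)))
        (∑ w ∈ S, β w * ∑' k, f w k / (N : ℂ) ^ (2 * k)) :=
      hasSum_sum fun w _ => (h6 w).hasSum.mul_left _
    have h8 := Complex.hasSum_re h7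
    rw [← h8.tsum_eq]
    refine tsum_congr fun k => ?_
    have h9 : ∑ w ∈ S, β w * (f w k / (N : ℂ) ^ (2 * k)) =
        (((N : ℝ) ^ (2 * k))⁻¹ : ℝ) * ∑ w ∈ S, β w * f w k := by
      rw [Finset.mul_sum]
      refine Finset.sum_congr rfl fun w _ => ?_
      push_cast
      rw [div_eq_mul_inv]
      ring
    rw [h9, Complex.re_ofReal_mul, div_eq_mul_inv, mul_comm]

end Pool.Agent.QX
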