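import Pool.Agent.helper62.QX.SpecT
import Pool.Agent.helper72.QX.MRB

set_option autoImplicit false

/-!
# Project QX (MP_07c750), row qt:TRB
-/

open Polynomial
open Pool.Agent.QU Pool.Agent.RP

namespace Pool.Agent.QX

private theorem TRB_rep {M : ℕ} (ρ : F2 →* Matrix.unitaryGroup (Fin M) ℂ) (f : MonoidAlgebra ℂ F2)
    (v : EuclideanSpace ℂ (Fin M)) (a : Fin M) :
    (rep ((isoU M).comp ρ) f v) a = ∑ b, R1 ρ f a b * v b := by
  unfold rep
  rw [sum_apply, WithLp.ofLp_sum, Finset.sum_apply]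
  have h1 : ∀ w ∈ f.coeff.support,
      ((f.coeff w • ((((isoU M).comp ρ) w).toLinearIsometry.toContinuousLinearMap :
      EuclideanSpace ℂ (Fin M) →L[ℂ] EuclideanSpace ℂ (Fin M))) v) a =
      ∑ b, f.coeff w * (ρ w : Matrix (Fin M) (Fin M) ℂ) a b * v b := by
    intro w _
    have h2 : ((f.coeff w • ((((isoU M).comp ρ) w).toLinearIsometry.toContinuousLinearMap :
      EuclideanSpace ℂ (Fin M) →L[ℂ] EuclideanSpace ℂ (Fin M))) v) a =
        f.coeff w * (isoU M (ρ w) v a) := rfl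
    rw [h2, isoU_apply, Finset.mul_sum]
    apply Finset.sum_congr rfl
    intro b _
    ring
  rw [Finset.sum_congr rfl h1, Finset.sum_comm]
  apply Finset.sum_congr rfl
  intro b _
  rw [R1, Finset.sum_mul]

private theorem TRB_app {D M : ℕ} (ρ : F2 →* Matrix.unitaryGroup (Fin M) ℂ) (P : Mat D F2)
    (v : Fin D → EuclideanSpace ℂ (Fin M)) :
    Matrix.toEuclideanCLM (n := Fin D × Fin M) (𝕜 := ℂ) (GM ρ P) (MRB_V v) =
      MRB_V (fun i => ∑ j, rep ((isoU M).comp ρ) (P i j) (v j)) := by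
  apply WithLp.ofLp_injective
  rw [Matrix.ofLp_toEuclideanCLM]
  funext s
  show ∑ t : Fin D × Fin M, GM ρ P s t * v t.1 t.2 =
    (∑ j, rep ((isoU M).comp ρ) (P s.1 j) (v j)) s.2
  rw [WithLp.ofLp_sum, Finset.sum_apply, Fintype.sum_prod_type]
  apply Finset.sum_congr rfl
  intro j _
  rw [TRB_rep]
  rfl

/-- the permutation representation on the vectors of sum zero -/
private theorem TRB_perm {N : ℕ} (Φ : Equiv.Perm (Fin N) →* Matrix.unitaryGroup (Fin (N - 1)) ℂ)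
    (σ : Fin 2 → Equiv.Perm (Fin N))
    (ι : EuclideanSpace ℂ (Fin (N - 1)) →ₗᵢ[ℂ] EuclideanSpace ℂ (Fin N))
    (hι : ∀ π u i, ι (isoU (N - 1) (Φ π) u) i = ι u (π⁻¹ i)) (f : MonoidAlgebra ℂ F2)
    (u : EuclideanSpace ℂ (Fin (N - 1))) :
    rep (permRep (FreeGroup.lift σ)) f (ι u) = ι (rep ((isoU (N - 1)).comp (rs Φ σ)) f u) := by
  unfold rep
  rw [sum_apply, sum_apply, map_sum]
  apply Finset.sum_congr rfl
  intro w _
  have h1 : (f.coeff w • (((permRep (FreeGroup.lift σ)) w).toLinearIsometry.toContinuousLinearMap :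
      EuclideanSpace ℂ (Fin N) →L[ℂ] EuclideanSpace ℂ (Fin N))) (ι u) =
      f.coeff w • (permRep (FreeGroup.lift σ) w (ι u)) := rfl
  have h2 : (f.coeff w • ((((isoU (N - 1)).comp (rs Φ σ)) w).toLinearIsometry.toContinuousLinearMap :
      EuclideanSpace ℂ (Fin (N - 1)) →L[ℂ] EuclideanSpace ℂ (Fin (N - 1)))) u =
      f.coeff w • (isoU (N - 1) (Φ (FreeGroup.lift σ w)) u) := rfl
  rw [h1, h2, map_smul]
  congr 1
  ext i
  rw [hι]
  rfl

theorem TRB (h1 : GMA_stmt) (_h2 : SPV_stmt) : TRB_stmt := by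
  intro D N Φ P σ r hΦ hr
  constructor
  · intro hg v hv
    obtain ⟨ι, hι1, _, hι3⟩ := hΦ.ex
    choose u hu using fun i => hι1 (v i) (hv i)
    have hA := (Matrix.toEuclideanCLM (n := Fin D × Fin (N - 1)) (𝕜 := ℂ)
      (GM (rs Φ σ) P)).le_of_opNorm_le hg (MRB_V u)
    have hB := pow_le_pow_left₀ (norm_nonneg _) hA 2
    rw [TRB_app, MRB_norm, mul_pow, MRB_norm] at hB
    have e1 : ∀ i, ‖∑ j, rep (permRep (FreeGroup.lift σ)) (P i j) (v j)‖ =
        ‖∑ j, rep ((isoU (N - 1)).comp (rs Φ σ)) (P i j) (u j)‖ := by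
      intro i
      have e2 : ∑ j, rep (permRep (FreeGroup.lift σ)) (P i j) (v j) =
          ι (∑ j, rep ((isoU (N - 1)).comp (rs Φ σ)) (P i j) (u j)) := by
        rw [map_sum]
        apply Finset.sum_congr rfl
        intro j _
        rw [← hu j, TRB_perm Φ σ ι hι3]
      rw [e2, ι.norm_map]
    have e3 : ∀ i, ‖v i‖ = ‖u i‖ := by
      intro i
      rw [← hu i, ι.norm_map]
    have e4 : ∑ i, ‖v i‖ ^ 2 = ∑ i, ‖u i‖ ^ 2 :=
      Finset.sum_congr rfl fun i _ => by rw [e3 i]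
    have e5 : ∑ i, ‖∑ j, rep (permRep (FreeGroup.lift σ)) (P i j) (v j)‖ ^ 2 =
        ∑ i, ‖∑ j, rep ((isoU (N - 1)).comp (rs Φ σ)) (P i j) (u j)‖ ^ 2 :=
      Finset.sum_congr rfl fun i _ => by rw [e1 i]
    rw [e4, e5]
    exact hB
  · intro hP hU
    have hH : (GM (rs Φ σ) P).IsHermitian := (h1 D (N - 1) (rs Φ σ)).2.2.2.2.2.2.2.2.2.1 P hP
    have hev : ∀ i, |hH.eigenvalues i| ≤ r := by
      intro i
      obtain ⟨v, hv⟩ := MRB_surj (hH.eigenvectorBasis i)
      have h1 := hU (EuclideanSpace ℂ (Fin (N - 1))) ((isoU (N - 1)).comp (rs Φ σ)) v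
      have h2 : (∑ i, ∑ j, inner ℂ (v i) (rep ((isoU (N - 1)).comp (rs Φ σ)) (P i j) (v j))) =
          inner ℂ (MRB_V v) (Matrix.toEuclideanCLM (n := Fin D × Fin (N - 1)) (𝕜 := ℂ)
            (GM (rs Φ σ) P) (MRB_V v)) := by
        rw [TRB_app, MRB_inner]
        apply Finset.sum_congr rfl
        intro i _
        rw [inner_sum]
      rw [h2, ← MRB_norm, hv, MRC_apply, inner_smul_right, inner_self_eq_norm_sq_to_K,
        OrthonormalBasis.norm_eq_one] at h1
      simpa using h1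
    have hsym : (Matrix.toEuclideanLin (GM (rs Φ σ) P)).IsSymmetric :=
      Matrix.isSymmetric_toEuclideanLin_iff.mpr hH
    apply ContinuousLinearMap.opNorm_le_bound _ hr
    intro v
    have h2 : ∀ i, inner ℂ (hH.eigenvectorBasis i)
        (Matrix.toEuclideanCLM (n := Fin D × Fin (N - 1)) (𝕜 := ℂ) (GM (rs Φ σ) P) v) =
        ((hH.eigenvalues i : ℝ) : ℂ) * inner ℂ (hH.eigenvectorBasis i) v := by
      intro i
      have h3 := hsym (hH.eigenvectorBasis i) v
      have h4 : Matrix.toEuclideanLin (GM (rs Φ σ) P) (hH.eigenvectorBasis i) =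
          ((hH.eigenvalues i : ℝ) : ℂ) • hH.eigenvectorBasis i :=
        MRC_apply _ hH i
      rw [h4, inner_smul_left, Complex.conj_ofReal] at h3
      exact h3.symm
    have h5 : ‖Matrix.toEuclideanCLM (n := Fin D × Fin (N - 1)) (𝕜 := ℂ) (GM (rs Φ σ) P) v‖ ^ 2 ≤
        (r * ‖v‖) ^ 2 := by
      rw [← hH.eigenvectorBasis.sum_sq_norm_inner_right, mul_pow,
        ← hH.eigenvectorBasis.sum_sq_norm_inner_right v, Finset.mul_sum]
      apply Finset.sum_le_sum
      intro i _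
      rw [h2, norm_mul, mul_pow, Complex.norm_real, Real.norm_eq_abs]
      exact mul_le_mul_of_nonneg_right (pow_le_pow_left₀ (abs_nonneg _) (hev i) 2) (sq_nonneg _)
    exact le_of_sq_le_sq h5 (mul_nonneg hr (norm_nonneg _))

end Pool.Agent.QX
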